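import Mathlib
import Pool.Agent.X62.AD.Exc

set_option autoImplicit false

/-!
The maximum excursions `t(n)` of the `3x+1` map and all real additive functions: asymptotic laws,
uniformly in the additive functions, in the intervals of their values and in multiplicative weights; the
joint limit law of `t(n) / n` and the number of prime factors of `n`.
-/

namespace Pool.Agent.Results.MP_0a5adf_nt.AdditiveFunctions

open Filter Topology Finset

/-- the accelerated `3x+1` map -/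
def T (n : ℕ) : ℕ := if n % 2 = 0 then n / 2 else (3 * n + 1) / 2

/-- `t(n) < ∞` -/
def FiniteExcursion (n : ℕ) : Prop := ∃ M : ℕ, ∀ k, T^[k] n ≤ M

/-- `t(n) ≤ v` -/
def ExcursionLE (n : ℕ) (v : ℝ) : Prop := ∀ k, ((T^[k] n : ℕ) : ℝ) ≤ v

/-- the positive integers with the property `P` have the natural density `δ` -/
def HasDensity (P : ℕ → Prop) (δ : ℝ) : Prop :=
  Tendsto (fun N : ℕ => ({n : ℕ | 1 ≤ n ∧ n ≤ N ∧ P n}.ncard : ℝ) / N) atTop (𝓝 δ)

/-- among the odd positive integers, those with the property `P` have the natural density `δ` -/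
def OddDensity (P : ℕ → Prop) (δ : ℝ) : Prop :=
  Tendsto (fun N : ℕ => 2 / (N : ℝ) * ({n : ℕ | 1 ≤ n ∧ n ≤ N ∧ Odd n ∧ P n}.ncard : ℝ)) atTop (𝓝 δ)

/-- The distribution function of the standard normal law. -/
noncomputable def Phi (x : ℝ) : ℝ :=
  ProbabilityTheory.cdf (ProbabilityTheory.gaussianReal 0 1) x

/-- the number of the odd terms among `n, T n, ..., T^(k-1) n` -/
def oddTerms (k n : ℕ) : ℕ := ∑ i ∈ range k, T^[i] n % 2

/-- the first `K` steps multiply by less than `lam`: `3^a < lam * 2^k` for all `k ≤ K`, where `a` is the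
number of the odd terms among the first `k` ones. This depends on `n` modulo `2^K` only. -/
def Safe (K : ℕ) (lam : ℝ) (n : ℕ) : Prop := ∀ k ≤ K, (3 : ℝ) ^ oddTerms k n < lam * 2 ^ k

/-- `f` is an additive function -/
def Additive (f : ℕ → ℝ) : Prop := ∀ m n : ℕ, m.Coprime n → f (m * n) = f m + f n

/-- `n` has at most `log log n + y √(log log n)` different prime factors -/
def FewPrimes (y : ℝ) (n : ℕ) : Prop :=
  (n.primeFactors.card : ℝ) ≤ Real.log (Real.log n) + y * Real.sqrt (Real.log (Real.log n))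

/-- WEIGHTS: multiplicative functions `h` with values in `[0, 1]`, supported on the odd integers, with
`∑_{p ≤ x} h p ≥ c x / log x` for `x ≥ x₀` (sum over primes). -/
def Weight (c : ℝ) (x₀ : ℕ) (h : ArithmeticFunction ℝ) : Prop :=
  h.IsMultiplicative ∧ (∀ n, 0 ≤ h n ∧ h n ≤ 1) ∧ (∀ n, Even n → h n = 0) ∧
    ∀ x : ℕ, x₀ ≤ x → c * (x / Real.log x) ≤ ∑ p ∈ (Icc 1 x).filter Nat.Prime, h p

/-- MULTIPLICATIVE SETS of odd positive integers: `E` contains `1`, the product of coprime integers is in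
`E` if and only if both factors are, and `E` contains at least `c x / log x` primes up to `x` for
`x ≥ x₀`. -/
def OddMultSet (c : ℝ) (x₀ : ℕ) (E : Set ℕ) : Prop :=
  ((∀ n ∈ E, Odd n) ∧ 1 ∈ E ∧ ∀ m n : ℕ, m.Coprime n → (m * n ∈ E ↔ m ∈ E ∧ n ∈ E)) ∧
    ∀ x : ℕ, x₀ ≤ x → c * (x / Real.log x) ≤ {p : ℕ | p.Prime ∧ p ≤ x ∧ p ∈ E}.ncard

/-- `f₁, ..., f_d` are additive functions and `J₁, ..., J_d` are intervals -/
def Conditions {d : ℕ} (f : Fin d → ℕ → ℝ) (J : Fin d → Set ℝ) : Prop :=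
  (∀ j, Additive (f j)) ∧ ∀ j, (J j).OrdConnected

open scoped Classical in
/-- THE PROPERTY `P` OF THE ODD POSITIVE INTEGERS HAS THE FREQUENCY `l`, INDEPENDENTLY OF ALL ADDITIVE
FUNCTIONS: for all `d`, `c, ε > 0`, `x₀` and all coprime residue classes `r` modulo `Q` and all large `N`:
(1) for every weight `h`, every complex multiplicative `g` with `|g| ≤ h`, all real additive functions
`f₁, ..., f_d` and all intervals `J₁, ..., J_d`, the sum of `g n` over the `n ≤ N`, `n ≡ r (mod Q)`, with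
`f_j n ∈ J_j` (`j = 1, ..., d`) and the property `P` is `l` times the sum without the property `P`, up to
`ε ∑_{n ≤ N} h n`;
(2) the same for the numbers of the `n` in multiplicative sets `E`, up to `ε` times the number of all
`n ≤ N` in `E`;
(3) among the odd integers the `n` with the property `P` and at most `log log n + y √(log log n)` prime
factors have the natural density `l Φ(y)`. -/
def Independent (P : ℕ → Prop) (l : ℝ) : Prop :=
  (∀ (d : ℕ) (c : ℝ) (x₀ : ℕ) (ε : ℝ) (Q r : ℕ), 0 < c → 0 < ε → 1 ≤ Q → r.Coprime Q →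
    ∃ N₀ : ℕ, ∀ N : ℕ, N₀ ≤ N → ∀ h : ArithmeticFunction ℝ, Weight c x₀ h →
      ∀ g : ArithmeticFunction ℂ, g.IsMultiplicative → (∀ n, ‖g n‖ ≤ h n) →
      ∀ (f : Fin d → ℕ → ℝ) (J : Fin d → Set ℝ), Conditions f J →
      ‖∑ n ∈ (Icc 1 N).filter (fun n => n % Q = r % Q ∧ (∀ j, f j n ∈ J j) ∧ P n), g n -
        l * ∑ n ∈ (Icc 1 N).filter (fun n => n % Q = r % Q ∧ ∀ j, f j n ∈ J j), g n‖ ≤
        ε * ∑ n ∈ Icc 1 N, h n) ∧
  (∀ (d : ℕ) (c : ℝ) (x₀ : ℕ) (ε : ℝ) (Q r : ℕ), 0 < c → 0 < ε → 1 ≤ Q → r.Coprime Q →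
    ∃ N₀ : ℕ, ∀ N : ℕ, N₀ ≤ N → ∀ E : Set ℕ, OddMultSet c x₀ E →
      ∀ (f : Fin d → ℕ → ℝ) (J : Fin d → Set ℝ), Conditions f J →
      |({n : ℕ | n ≤ N ∧ n ∈ E ∧ n % Q = r % Q ∧ (∀ j, f j n ∈ J j) ∧ P n}.ncard : ℝ) -
        l * {n : ℕ | n ≤ N ∧ n ∈ E ∧ n % Q = r % Q ∧ ∀ j, f j n ∈ J j}.ncard| ≤
        ε * {n : ℕ | n ≤ N ∧ n ∈ E}.ncard) ∧
  ∀ y : ℝ, OddDensity (fun n => P n ∧ FewPrimes y n) (l * Phi y)

open Pool.Agent.X62.AD (AO_full AO_sets AO_ek tr bdd_RA exc_law exc_set exc_large exc_large_set exc_ek exc_large_ek)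

theorem T_eq' : T = Pool.Agent.H499R2.ND.Tn := by
  funext n; rfl

theorem safe_iff (K : ℕ) (lam : ℝ) (n : ℕ) : Safe K lam n ↔ ¬ Pool.Agent.H828R3.Exc.PP lam K n := by
  unfold Safe Pool.Agent.H828R3.Exc.PP
  push Not
  exact Iff.rfl

theorem le_iff (lam : ℝ) (n : ℕ) : ExcursionLE n (lam * n) ↔
    ∀ k, ((Pool.Agent.H499R2.ND.Tn^[k] n : ℕ) : ℝ) ≤ lam * n := by
  unfold ExcursionLE
  rw [T_eq']

theorem fin_iff (n : ℕ) : FiniteExcursion n ↔ Pool.Agent.H499R2.ND.Bdd n := by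
  unfold FiniteExcursion Pool.Agent.H499R2.ND.Bdd
  rw [T_eq']

theorem odd_of {P : ℕ → Prop} {l y : ℝ}
    (h : Pool.Agent.H499R2.ND.Dn (fun n => (n % 2 = 1 ∧ P n) ∧ (n.primeFactors.card : ℝ) ≤ tr y n)
      (l * Pool.Agent.X62.EK.Phi y / 2)) : OddDensity (fun n => P n ∧ FewPrimes y n) (l * Phi y) := by
  have h1 := h.const_mul 2
  have e : 2 * (l * Pool.Agent.X62.EK.Phi y / 2) = l * Phi y := by
    unfold Phi Pool.Agent.X62.EK.Phi
    ring
  rw [e] at h1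
  unfold OddDensity
  refine h1.congr fun X => ?_
  have e2 : {n : ℕ | 1 ≤ n ∧ n ≤ X ∧ Odd n ∧ P n ∧ FewPrimes y n} =
      {n : ℕ | 1 ≤ n ∧ n ≤ X ∧ ((n % 2 = 1 ∧ P n) ∧ (n.primeFactors.card : ℝ) ≤ tr y n)} := by
    ext n
    simp only [Set.mem_ofPred_eq, Nat.odd_iff]
    unfold FewPrimes tr
    tauto
  rw [e2]
  unfold Pool.Agent.H499R2.ND.cnt
  ring

/-- THE MAXIMUM EXCURSIONS AND ALL ADDITIVE FUNCTIONS.
Let `β > 0` be the natural density of the `n` with `t(n) < ∞` (`β = 1` if and only if `t(n)` is always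
finite), and for real `lam` let `q lam` be the limit of the proportion of the safe residue classes modulo
`2^K` (`q lam ≥ 1 - 1 / lam` for `lam > 0`, and `q lam = 0` for `lam ≤ 1`). Among the odd integers `n`
(1) the `n` with `t(n) < ∞` have the frequency `β`, independently of all additive functions;
(2) for every `ψ` tending to infinity so have the `n` with `t(n) ≤ ψ(n) n`; in particular the `n` with
`t(n) ≤ n²` (`ψ(n) = n`) have the frequency `β` and the exceptions the frequency `1 - β`;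
(3) THE LAW OF `t(n) / n`. There is `ρ < 1`, and for all `c > 0` and `x₀` there is `C`, such that for all
`d`, `lam > 1`, `K ≥ 1`, `ε > 0` and `N ≥ N₀`: for all weights `h`, all multiplicative `g` with
`|g| ≤ h` and all conditions `f_j n ∈ J_j` on `d` additive functions, the sum of `g n` over the `n ≤ N`
with these conditions and `t(n) ≤ lam n` is `β` times the sum of `g n` over the safe `n ≤ N` with these
conditions, up to `(C ρ^K + ε) ∑ h`; the same for the numbers of integers in multiplicative sets;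
(4) for all `lam > 1` and `y` the odd `n` with `t(n) ≤ lam n` and at most `log log n + y √(log log n)`
prime factors have the density `β q(2 lam / 3) Φ(y)` among the odd integers. -/
theorem result : ∃ (β : ℝ) (q : ℝ → ℝ) (ρ : ℝ), 0 < β ∧ β ≤ 1 ∧
    (β = 1 ↔ ∀ n : ℕ, 1 ≤ n → FiniteExcursion n) ∧ HasDensity FiniteExcursion β ∧ 0 < ρ ∧ ρ < 1 ∧
    (∀ lam : ℝ, (0 < lam → 1 - 1 / lam ≤ q lam) ∧ (lam ≤ 1 → q lam = 0) ∧ q lam ≤ 1 ∧
      Tendsto (fun K : ℕ => ({n : ℕ | n < 2 ^ K ∧ Safe K lam n}.ncard : ℝ) / 2 ^ K) atTop (𝓝 (q lam))) ∧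
    (∀ (K : ℕ) (lam : ℝ) (n : ℕ), Safe K lam (n % 2 ^ K) ↔ Safe K lam n) ∧
    Independent FiniteExcursion β ∧
    (∀ ψ : ℕ → ℝ, Tendsto ψ atTop atTop → Independent (fun n => ExcursionLE n (ψ n * n)) β) ∧
    Independent (fun n => ¬ ExcursionLE n ((n : ℝ) ^ 2)) (1 - β) ∧
    (∀ (c : ℝ) (x₀ : ℕ), 0 < c → ∃ C : ℝ, 0 < C ∧ ∀ (d : ℕ) (lam : ℝ), 1 < lam → ∀ (K : ℕ) (ε : ℝ),
      1 ≤ K → 0 < ε → ∃ N₀ : ℕ, ∀ N : ℕ, N₀ ≤ N → ∀ h : ArithmeticFunction ℝ, Weight c x₀ h →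
        ∀ g : ArithmeticFunction ℂ, g.IsMultiplicative → (∀ n, ‖g n‖ ≤ h n) →
        ∀ (f : Fin d → ℕ → ℝ) (J : Fin d → Set ℝ), Conditions f J →
        ‖∑ᶠ n ∈ {n : ℕ | n ≤ N ∧ (∀ j, f j n ∈ J j) ∧ ExcursionLE n (lam * n)}, g n -
          β * ∑ᶠ n ∈ {n : ℕ | n ≤ N ∧ (∀ j, f j n ∈ J j) ∧ Safe K lam n}, g n‖ ≤
          (C * ρ ^ K + ε) * ∑ n ∈ Icc 1 N, h n) ∧
    (∀ (c : ℝ) (x₀ : ℕ), 0 < c → ∃ C : ℝ, 0 < C ∧ ∀ (d : ℕ) (lam : ℝ), 1 < lam → ∀ (K : ℕ) (ε : ℝ),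
      1 ≤ K → 0 < ε → ∃ N₀ : ℕ, ∀ N : ℕ, N₀ ≤ N → ∀ E : Set ℕ, OddMultSet c x₀ E →
        ∀ (f : Fin d → ℕ → ℝ) (J : Fin d → Set ℝ), Conditions f J →
        |({n : ℕ | n ≤ N ∧ n ∈ E ∧ (∀ j, f j n ∈ J j) ∧ ExcursionLE n (lam * n)}.ncard : ℝ) -
          β * {n : ℕ | n ≤ N ∧ n ∈ E ∧ (∀ j, f j n ∈ J j) ∧ Safe K lam n}.ncard| ≤
          (C * ρ ^ K + ε) * {n : ℕ | n ≤ N ∧ n ∈ E}.ncard) ∧
    (∀ lam : ℝ, 1 < lam → ∀ y : ℝ,
      OddDensity (fun n => ExcursionLE n (lam * n) ∧ FewPrimes y n) (β * q (2 * lam / 3) * Phi y)) := by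
  classical
  obtain ⟨β, hβ0, hβ1, hβ2, hβ⟩ := Pool.Agent.H499R2.ND.Bdd_density
  have hle : ∀ (ψ : ℕ → ℝ) (n : ℕ), ExcursionLE n (ψ n * n) ↔
      ∀ k, ((Pool.Agent.H499R2.ND.Tn^[k] n : ℕ) : ℝ) ≤ ψ n * n := fun ψ n => le_iff (ψ n) n
  have hind : ∀ ψ : ℕ → ℝ, Tendsto ψ atTop atTop → Independent (fun n => ExcursionLE n (ψ n * n)) β := by
    intro ψ hψ
    refine ⟨fun d c x₀ ε Q r hc hε hQ hr => ?_, fun d c x₀ ε Q r hc hε hQ hr => ?_, fun y => ?_⟩
    · obtain ⟨N0, h0⟩ := exc_large hβ d hc x₀ hψ hε hQ hr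
      refine ⟨N0, fun N hN h w g gM hg f J hJ => ?_⟩
      have h1 := h0 N hN h w.1 w.2.1 w.2.2.1 w.2.2.2 g gM hg f hJ.1 J hJ.2
      simp only [hle ψ]
      convert h1
    · obtain ⟨N0, h0⟩ := exc_large_set hβ d hc x₀ hψ hε hQ hr
      refine ⟨N0, fun N hN E hE f J hJ => ?_⟩
      simp only [hle ψ]
      exact h0 N hN E hE.1 hE.2 f hJ.1 J hJ.2
    · apply odd_of
      have h1 := exc_large_ek hβ hψ y
      simp only [hle ψ]
      exact h1
  have hfin : Independent FiniteExcursion β := by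
    have hiff : ∀ n : ℕ, 0 ≤ n → Odd n → (Pool.Agent.H499R2.ND.Bdd n ↔ FiniteExcursion n) :=
      fun n _ _ => (fin_iff n).symm
    refine ⟨fun d c x₀ ε Q r hc hε hQ hr => ?_, fun d c x₀ ε Q r hc hε hQ hr => ?_, fun y => ?_⟩
    · obtain ⟨N0, h0⟩ := AO_full (bdd_RA hβ) 0 hiff d c x₀ ε Q r hc hε hQ hr
      refine ⟨N0, fun N hN h w g gM hg f J hJ => ?_⟩
      have h1 := h0 N hN h w.1 w.2.1 w.2.2.1 w.2.2.2 g gM hg f hJ.1 J hJ.2
      convert h1
    · obtain ⟨N0, h0⟩ := AO_sets (bdd_RA hβ) 0 hiff d c x₀ ε Q r hc hε hQ hr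
      exact ⟨N0, fun N hN E hE f J hJ => h0 N hN E hE.1 hE.2 f hJ.1 J hJ.2⟩
    · exact odd_of (AO_ek (bdd_RA hβ) 0 hiff y)
  refine ⟨β, Pool.Agent.W36.SL.q, Pool.Agent.W36.SL.b, hβ0, hβ1, ?_, ?_, Pool.Agent.W36.SL.b_pos,
    Pool.Agent.W36.SL.b_lt_one, ?_, ?_, hfin, hind, ?_, ?_, ?_, ?_⟩
  · rw [hβ2]
    exact forall_congr' fun n => forall_congr' fun _ => (fin_iff n).symm
  · exact Pool.Agent.H499R2.LT.Dn_iff (fun n _ => (fin_iff n).symm) hβ
  · intro lam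
    refine ⟨fun h => Pool.Agent.W36.SL.q_ge h, Pool.Agent.W36.SL.q_zero_of_le, Pool.Agent.W36.SL.q_le_one lam, ?_⟩
    refine (Pool.Agent.W36.SL.s_tendsto lam).congr fun K => ?_
    have h1 := Pool.Agent.W36.SL.card_PP K lam
    have h2 := Finset.card_filter_add_card_filter_not (s := range (2 ^ K))
      (fun n => Pool.Agent.H828R3.Exc.PP lam K n)
    rw [card_range] at h2
    have h3 : (((range (2 ^ K)).filter (fun n => Pool.Agent.H828R3.Exc.PP lam K n)).card : ℝ) +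
        (((range (2 ^ K)).filter (fun n => ¬ Pool.Agent.H828R3.Exc.PP lam K n)).card : ℝ) = 2 ^ K := by
      exact_mod_cast h2
    have h4 : ({n : ℕ | n < 2 ^ K ∧ Safe K lam n}.ncard : ℝ) =
        (((range (2 ^ K)).filter (fun n => ¬ Pool.Agent.H828R3.Exc.PP lam K n)).card : ℝ) := by
      have e : {n : ℕ | n < 2 ^ K ∧ Safe K lam n} =
          (((range (2 ^ K)).filter (fun n => ¬ Pool.Agent.H828R3.Exc.PP lam K n) : Finset ℕ) : Set ℕ) := by
        ext n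
        rw [mem_coe, mem_filter, mem_range, ← safe_iff]
        exact Iff.rfl
      rw [e, Set.ncard_coe_finset]
    have h5 : (((range (2 ^ K)).filter (fun n => Pool.Agent.H828R3.Exc.PP lam K n)).card : ℝ) =
        2 ^ K * (1 - Pool.Agent.W36.SL.s K lam) := by
      rw [← h1]
    rw [h4, eq_div_iff (by positivity)]
    linarith
  · intro K lam n
    rw [safe_iff, safe_iff, Pool.Agent.W36.SL.PP_mod]
  · -- the exceptions `t(n) > n²`
    have h1 := hind (fun n => (n : ℝ)) tendsto_natCast_atTop_atTop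
    have e0 : ∀ n : ℕ, ¬ ExcursionLE n ((n : ℝ) ^ 2) ↔ ¬ ExcursionLE n ((n : ℝ) * n) := by
      intro n; rw [pow_two]
    obtain ⟨k1, k2, k3⟩ := h1
    refine ⟨fun d c x₀ ε Q r hc hε hQ hr => ?_, fun d c x₀ ε Q r hc hε hQ hr => ?_, fun y => ?_⟩
    · obtain ⟨N0, h0⟩ := k1 d c x₀ ε Q r hc hε hQ hr
      refine ⟨N0, fun N hN h w g gM hg f J hJ => ?_⟩
      have h1 := h0 N hN h w g gM hg f J hJ
      simp only [e0]
      rw [← norm_neg]
      refine le_trans (le_of_eq ?_) h1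
      congr 1
      have e1 : ∑ n ∈ (Icc 1 N).filter (fun n => n % Q = r % Q ∧ ∀ j, f j n ∈ J j), g n =
          ∑ n ∈ (Icc 1 N).filter (fun n => n % Q = r % Q ∧ (∀ j, f j n ∈ J j) ∧ ExcursionLE n ((n : ℝ) * n)), g n +
          ∑ n ∈ (Icc 1 N).filter (fun n => n % Q = r % Q ∧ (∀ j, f j n ∈ J j) ∧ ¬ ExcursionLE n ((n : ℝ) * n)), g n := by
        rw [sum_filter, sum_filter, sum_filter, ← sum_add_distrib]
        apply sum_congr rfl
        intro n _
        by_cases a1 : n % Q = r % Q ∧ ∀ j, f j n ∈ J j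
        · by_cases a2 : ExcursionLE n ((n : ℝ) * n)
          · rw [if_pos a1, if_pos ⟨a1.1, a1.2, a2⟩, if_neg (fun h => h.2.2 a2), add_zero]
          · rw [if_pos a1, if_neg (fun h => a2 h.2.2), if_pos ⟨a1.1, a1.2, a2⟩, zero_add]
        · rw [if_neg a1, if_neg (fun h => a1 ⟨h.1, h.2.1⟩), if_neg (fun h => a1 ⟨h.1, h.2.1⟩), add_zero]
      rw [e1]
      push_cast
      ring
    · obtain ⟨N0, h0⟩ := k2 d c x₀ ε Q r hc hε hQ hr
      refine ⟨N0, fun N hN E hE f J hJ => ?_⟩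
      have h1 := h0 N hN E hE f J hJ
      simp only [e0]
      rw [← abs_neg]
      refine le_trans (le_of_eq ?_) h1
      congr 1
      have e1 : (({n : ℕ | n ≤ N ∧ n ∈ E ∧ n % Q = r % Q ∧ ∀ j, f j n ∈ J j}.ncard : ℕ) : ℝ) =
          {n : ℕ | n ≤ N ∧ n ∈ E ∧ n % Q = r % Q ∧ (∀ j, f j n ∈ J j) ∧ ExcursionLE n ((n : ℝ) * n)}.ncard +
          {n : ℕ | n ≤ N ∧ n ∈ E ∧ n % Q = r % Q ∧ (∀ j, f j n ∈ J j) ∧ ¬ ExcursionLE n ((n : ℝ) * n)}.ncard := by
        rw [← Nat.cast_add, ← Set.ncard_union_eq (hs := (Set.finite_le_nat N).subset fun n hn => hn.1)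
          (ht := (Set.finite_le_nat N).subset fun n hn => hn.1)]
        · congr 2
          ext n
          simp only [Set.mem_ofPred_eq, Set.mem_union]
          tauto
        · rw [Set.disjoint_left]
          rintro n ⟨_, _, _, _, a⟩ ⟨_, _, _, _, a'⟩
          exact a' a
      rw [e1]
      ring
    · have h1 := k3 y
      have hod := Pool.Agent.X62.AD.ek_odd y
      have h2 := hod.const_mul 2
      have e : 2 * (Pool.Agent.X62.EK.Phi y / 2) = Phi y := by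
        unfold Phi Pool.Agent.X62.EK.Phi
        ring
      rw [e] at h2
      have h3 := h2.sub h1
      have e3 : Phi y - β * Phi y = (1 - β) * Phi y := by ring
      rw [e3] at h3
      unfold OddDensity
      refine h3.congr fun X => ?_
      simp only [e0]
      have e1 : ((Pool.Agent.H499R2.ND.cnt (fun n => n % 2 = 1 ∧ (n.primeFactors.card : ℝ) ≤ tr y n) X)) =
          ({n : ℕ | 1 ≤ n ∧ n ≤ X ∧ Odd n ∧ ExcursionLE n ((n : ℝ) * n) ∧ FewPrimes y n}.ncard : ℝ) +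
          {n : ℕ | 1 ≤ n ∧ n ≤ X ∧ Odd n ∧ (¬ ExcursionLE n ((n : ℝ) * n)) ∧ FewPrimes y n}.ncard := by
        unfold Pool.Agent.H499R2.ND.cnt
        rw [← Nat.cast_add, ← Set.ncard_union_eq (hs := (Set.finite_le_nat X).subset fun n hn => hn.2.1)
          (ht := (Set.finite_le_nat X).subset fun n hn => hn.2.1)]
        · congr 2
          ext n
          simp only [Set.mem_ofPred_eq, Set.mem_union, Nat.odd_iff]
          unfold FewPrimes tr
          tauto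
        · rw [Set.disjoint_left]
          rintro n ⟨_, _, _, a, _⟩ ⟨_, _, _, a', _⟩
          exact a' a
      rw [mul_div_assoc', e1]
      ring
  · intro c x₀ hc
    obtain ⟨C, hC, h1⟩ := exc_law hβ hc x₀
    refine ⟨C, hC, fun d lam hlam K ε hK hε => ?_⟩
    obtain ⟨N0, h0⟩ := h1 d lam hlam K ε hK hε
    refine ⟨N0, fun N hN h w g gM hg f J hJ => ?_⟩
    have h2 := h0 N hN h w.1 w.2.1 w.2.2.1 w.2.2.2 g gM hg f hJ.1 J hJ.2
    refine le_trans (le_of_eq ?_) h2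
    have hg0 : g 0 = 0 := g.map_zero
    have key : ∀ P Q : ℕ → Prop, (∀ n, P n ↔ Q n) → ∑ᶠ n ∈ {n : ℕ | n ≤ N ∧ P n}, g n =
        ∑ n ∈ (Icc 1 N).filter Q, g n := by
      intro P Q hPQ
      have e1 : {n : ℕ | n ≤ N ∧ P n} = (((range (N + 1)).filter P : Finset ℕ) : Set ℕ) := by
        ext n
        rw [mem_coe, mem_filter, mem_range]
        exact ⟨fun h => ⟨Nat.lt_succ_of_le h.1, h.2⟩, fun h => ⟨Nat.le_of_lt_succ h.1, h.2⟩⟩
      rw [e1, finsum_mem_coe_finset, sum_filter, sum_filter, range_eq_Ico, sum_eq_sum_Ico_succ_bot (by omega)]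
      have e2 : Ico (0 + 1) (N + 1) = Icc 1 N := by
        ext n; rw [mem_Ico, mem_Icc]; omega
      rw [e2, hg0]
      simp only [ite_self, zero_add]
      apply sum_congr rfl
      intro n _
      simp only [hPQ]
    rw [key _ (fun n => (∀ j, f j n ∈ J j) ∧ ∀ k, ((Pool.Agent.H499R2.ND.Tn^[k] n : ℕ) : ℝ) ≤ lam * n)
      (fun n => and_congr_right fun _ => le_iff lam n),
      key _ (fun n => (∀ j, f j n ∈ J j) ∧ ¬ Pool.Agent.H828R3.Exc.PP lam K n)
      (fun n => and_congr_right fun _ => safe_iff K lam n)]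
    congr!
  · intro c x₀ hc
    obtain ⟨C, hC, h1⟩ := exc_set hβ hc x₀
    refine ⟨C, hC, fun d lam hlam K ε hK hε => ?_⟩
    obtain ⟨N0, h0⟩ := h1 d lam hlam K ε hK hε
    refine ⟨N0, fun N hN E hE f J hJ => ?_⟩
    have h2 := h0 N hN E ⟨fun h => by have := hE.1.1 0 h; exact absurd this (by decide), hE.1.2⟩ hE.1.1 hE.2 f hJ.1 J hJ.2
    simp only [le_iff, safe_iff]
    exact h2
  · intro lam hlam y
    apply odd_of
    have h1 := exc_ek hβ hβ0.le hβ1 hlam y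
    simp only [le_iff]
    exact h1

end Pool.Agent.Results.MP_0a5adf_nt.AdditiveFunctions
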