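import Pool.Agent.X17.DW.C
import Pool.Agent.W38.AH

set_option autoImplicit false

/-!
# Maximum excursions near integers with random or missing digits

Let `b ≥ 3` be odd, `f` a nonconstant integer polynomial, `A` any integer, and let `n` be a random natural number
with `L` independent digits in base `b`, where for a fixed odd `Δ` at each place some two digits with difference
`Δ` have probability at least `c > 0`. Let `W = √L / (log L) ^ 18` and `κ > 0`. Outside an event of probability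
`o(1)`, uniformly in `A`, the integer `y = f (A + n)` is not positive, or all the natural numbers whose trajectories
come near to one of the numbers `3 ^ i y`, `i ≤ W`, have the same maximum excursion as `y`, up to excursions below
`y exp (κ L / log L)`. The same for almost all integers with missing digits.
-/

namespace Pool.Agent.Results.MP_0a5adf_nt.DigitExcursions

open Filter Topology Polynomial Pool.Agent

/-- The accelerated `3x+1` function. -/
def T (n : ℕ) : ℕ := if n % 2 = 0 then n / 2 else (3 * n + 1) / 2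

/-- The maximum excursion. -/
noncomputable def t (n : ℕ) : ℕ∞ := ⨆ k : ℕ, ((T^[k] n : ℕ) : ℕ∞)

/-- The excursions near the numbers `3 ^ i y`, `i ≤ w`, are those of `y`, up to excursions below `y V`: let the term
of index `j` of the trajectory of the natural number `z` be within `exp w` of `3 ^ i y`, and let `M ≥ y V` be such
that the terms of `z` before it are at most `M`; then `z` and `y` have the same maximum excursion or both
excursions are at most `M`. -/
def SameExcursion (w V : ℝ) (y : ℕ) : Prop :=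
  ∀ z i j M : ℕ, (i : ℝ) ≤ w → |((T^[j] z : ℕ) : ℝ) - 3 ^ i * y| ≤ Real.exp w → y * V ≤ M →
    (∀ l < j, T^[l] z ≤ M) → t z = t y ∨ (t z ≤ M ∧ t y ≤ M)

/-- The integer with the digits `x 0, x 1, …, x (L - 1)` in base `b`. -/
def number (b : ℕ) {L : ℕ} (x : Fin L → Fin b) : ℕ := ∑ j : Fin L, (x j : ℕ) * b ^ (j : ℕ)

open Classical in
/-- The probability that the random integer with `L` independent digits in base `b`, where the digit at
the place `j` is `x` with probability `ν j x`, has the property `P`. -/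
noncomputable def Prob {b L : ℕ} (ν : Fin L → Fin b → ℝ) (P : ℕ → Prop) : ℝ :=
  ∑ x : Fin L → Fin b, if P (number b x) then ∏ j, ν j (x j) else 0

/-- The `ν j` are probability laws on the digits, and for each place `j` there are two digits `e` and
`e' = e + Δ` whose probabilities are at least `c`. -/
structure DigitLaws (b Δ : ℕ) (c : ℝ) {L : ℕ} (ν : Fin L → Fin b → ℝ) : Prop where
  nonneg : ∀ j x, 0 ≤ ν j x
  one : ∀ j, ∑ x, ν j x = 1
  two : ∀ j, ∃ e e' : Fin b, (e' : ℕ) = e + Δ ∧ c ≤ ν j e ∧ c ≤ ν j e'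

/-- The integers `n < b ^ L` whose `L` digits in base `b` (with leading zeros) are all in `D`. -/
def DigitsIn (b : ℕ) (D : Finset ℕ) (L : ℕ) : Set ℕ := {n | n < b ^ L ∧ ∀ j < L, n / b ^ j % b ∈ D}

/-- The range `√L / (log L) ^ 18`. -/
noncomputable def W (L : ℕ) : ℝ := √ (L : ℝ) / Real.log L ^ 18

/-! ### Excursions -/

theorem T_le (y : ℕ) : ((T y : ℕ) : ℝ) + 1 ≤ 3 / 2 * ((y : ℝ) + 1) := by
  have h : 2 * (T y + 1) ≤ 3 * (y + 1) := by
    unfold T
    split_ifs <;> omega
  have h2 : (2 : ℝ) * ((T y : ℕ) + 1) ≤ 3 * ((y : ℝ) + 1) := by exact_mod_cast h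
  linarith

theorem iter_le (j : ℕ) : ∀ y : ℕ, ((T^[j] y : ℕ) : ℝ) + 1 ≤ (3 / 2) ^ j * ((y : ℝ) + 1) := by
  induction j with
  | zero => intro y; simp
  | succ j ih =>
    intro y
    rw [Function.iterate_succ_apply]
    refine (ih (T y)).trans ?_
    rw [pow_succ, mul_assoc]
    exact mul_le_mul_of_nonneg_left (T_le y) (by positivity)

theorem le_t (y j : ℕ) : ((T^[j] y : ℕ) : ℕ∞) ≤ t y := le_iSup (fun k => ((T^[k] y : ℕ) : ℕ∞)) j

/-- the maximum from a time on -/
theorem t_split {y X u M : ℕ} (hX : T^[u] y = X) (hpre : ∀ j, j < u → T^[j] y ≤ M) :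
    (t X ≤ M → t y ≤ M) ∧ (¬ t X ≤ M → t y = t X) := by
  have hle : t X ≤ t y := by
    unfold t
    apply iSup_le
    intro k
    rw [← hX, ← Function.iterate_add_apply]
    exact le_t y (k + u)
  have hterm : ∀ k, T^[k] y ≤ M ∨ ((T^[k] y : ℕ) : ℕ∞) ≤ t X := by
    intro k
    rcases Nat.lt_or_ge k u with h | h
    · left; exact hpre k h
    · right
      obtain ⟨l, rfl⟩ := Nat.exists_eq_add_of_le h
      rw [Nat.add_comm, Function.iterate_add_apply, hX]
      exact le_t X l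
  constructor
  · intro h
    unfold t
    apply iSup_le
    intro k
    rcases hterm k with h1 | h1
    · exact_mod_cast h1
    · exact h1.trans h
  · intro h
    rw [not_le] at h
    apply le_antisymm _ hle
    unfold t
    apply iSup_le
    intro k
    rcases hterm k with h1 | h1
    · have h2 : ((T^[k] y : ℕ) : ℕ∞) ≤ (M : ℕ∞) := by exact_mod_cast h1
      exact h2.trans h.le
    · exact h1

theorem T_cast (k n : ℕ) : (H499R2.CO.Tz 1)^[k] (n : ℤ) = ((T^[k] n : ℕ) : ℤ) :=
  W38.AF.Tz_Tn k n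

/-- the property from the merging -/
theorem same_of {w V : ℝ} {u : ℕ} {y : ℤ} (hy : 0 < y) (hw : 0 ≤ w)
    (hV : (3 / 2 : ℝ) ^ u * (3 * Real.exp (2 * w)) ≤ V) (h : X17.DW.Near 1 w u y) :
    SameExcursion w V y.toNat := by
  obtain ⟨y, rfl⟩ : ∃ m : ℕ, y = m := ⟨y.toNat, by omega⟩
  have hy1 : (1 : ℝ) ≤ y := by exact_mod_cast (by omega : 1 ≤ y)
  rw [Int.toNat_natCast]
  intro z i j M hi hz hM hpre
  -- the merging
  have h1 : T^[u] (T^[j] z) = T^[u] y := by
    have h2 := (h i (((T^[j] z : ℕ) : ℤ) - 3 ^ i * (y : ℤ)) hi (by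
      push_cast
      exact hz)).1
    have e : 3 ^ i * (y : ℤ) + 1 * (((T^[j] z : ℕ) : ℤ) - 3 ^ i * (y : ℤ)) = ((T^[j] z : ℕ) : ℤ) := by ring
    rw [e, T_cast, T_cast] at h2
    exact_mod_cast h2
  -- sizes
  have h3w : (3 : ℝ) ^ i ≤ Real.exp (2 * w) := by
    have h5 : Real.log 3 ≤ 2 := by
      have := Real.log_le_sub_one_of_pos (show (0 : ℝ) < 3 by norm_num)
      linarith
    calc (3 : ℝ) ^ i = Real.exp (i * Real.log 3) := by rw [Real.exp_nat_mul, Real.exp_log (by norm_num)]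
      _ ≤ Real.exp (2 * w) := by
          apply Real.exp_le_exp.2
          have hl3 : 0 ≤ Real.log 3 := Real.log_nonneg (by norm_num)
          nlinarith
  have hew : Real.exp w ≤ Real.exp (2 * w) := Real.exp_le_exp.2 (by linarith)
  have he1 : 1 ≤ Real.exp (2 * w) := Real.one_le_exp (by linarith)
  have hzb : ((T^[j] z : ℕ) : ℝ) + 1 ≤ y * (3 * Real.exp (2 * w)) := by
    have h6 := (abs_le.1 hz).2
    have h7 : (3 : ℝ) ^ i * y ≤ Real.exp (2 * w) * y := mul_le_mul_of_nonneg_right h3w (by linarith)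
    nlinarith
  have hyb : (y : ℝ) + 1 ≤ y * (3 * Real.exp (2 * w)) := by nlinarith
  have hbase : ∀ x : ℕ, (x : ℝ) + 1 ≤ y * (3 * Real.exp (2 * w)) → ∀ l, l < u → T^[l] x ≤ M := by
    intro x hx l hl
    have h6 := iter_le l x
    have h7 : (3 / 2 : ℝ) ^ l ≤ (3 / 2) ^ u := pow_le_pow_right₀ (by norm_num) hl.le
    have h8 : (3 / 2 : ℝ) ^ l * ((x : ℝ) + 1) ≤ (3 / 2) ^ u * (y * (3 * Real.exp (2 * w))) :=
      mul_le_mul h7 hx (by positivity) (by positivity)
    have h9 : (3 / 2 : ℝ) ^ u * (y * (3 * Real.exp (2 * w))) ≤ y * V := by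
      calc (3 / 2 : ℝ) ^ u * (y * (3 * Real.exp (2 * w))) = y * ((3 / 2) ^ u * (3 * Real.exp (2 * w))) := by ring
        _ ≤ y * V := mul_le_mul_of_nonneg_left hV (by linarith)
    have h10 : ((T^[l] x : ℕ) : ℝ) ≤ M := by linarith
    exact_mod_cast h10
  have s1 := t_split (y := y) (u := u) (M := M) rfl (hbase y hyb)
  have s2 := t_split (y := z) (u := u + j) (M := M) (X := T^[u] y) (by
    rw [Function.iterate_add_apply]; exact h1) (by
    intro l hl
    rcases Nat.lt_or_ge l j with h6 | h6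
    · exact hpre l h6
    · obtain ⟨l', rfl⟩ := Nat.exists_eq_add_of_le h6
      rw [Nat.add_comm, Function.iterate_add_apply]
      exact hbase _ hzb l' (by omega))
  by_cases hX : t (T^[u] y) ≤ M
  · right; exact ⟨s2.1 hX, s1.1 hX⟩
  · left; rw [s2.2 hX, s1.2 hX]

/-! ### Probabilities -/

theorem prob_eq {b L : ℕ} (ν : Fin L → Fin b → ℝ) (P : ℕ → Prop) : Prob ν P = X17.MD.prob ν P := by
  classical
  rw [X17.MD.prob_eq P ((Finset.univ : Finset (Fin L → Fin b)).filter (fun d => P (X17.MD.num b d)))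
    (fun d => by simp), Finset.sum_filter]
  unfold Prob
  apply Finset.sum_congr rfl
  intro d _
  have e : number b d = X17.MD.num b d := rfl
  rw [e]
  by_cases h : P (X17.MD.num b d)
  · rw [if_pos h, if_pos h]; rfl
  · rw [if_neg h, if_neg h]

theorem laws {b Δ : ℕ} {c c' : ℝ} (hc : c' ≤ c) {L : ℕ} {ν : Fin L → Fin b → ℝ} (h : DigitLaws b Δ c ν) :
    X17.MD.Law b Δ c' ν :=
  ⟨h.nonneg, h.one, fun j => by
    obtain ⟨e, e', h1, h2, h3⟩ := h.two j
    exact ⟨e, e', h1, hc.trans h2, hc.trans h3⟩⟩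

/-- for large `L` the factor `exp (κ L / log L)` absorbs the growth before the merging -/
theorem factor {κ : ℝ} (hκ : 0 < κ) : ∀ᶠ L : ℕ in atTop, 0 ≤ W L ∧ ∀ u : ℕ, (u : ℝ) ≤ κ / 2 * (L / Real.log L) →
    (3 / 2 : ℝ) ^ u * (3 * Real.exp (2 * W L)) ≤ Real.exp (κ * (L / Real.log L)) := by
  have hlog : Tendsto (fun L : ℕ => Real.log (L : ℝ)) atTop atTop :=
    Real.tendsto_log_atTop.comp tendsto_natCast_atTop_atTop
  have hdiv : Tendsto (fun L : ℕ => (L : ℝ) / Real.log L) atTop atTop := by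
    have h1 : Tendsto (fun x : ℝ => x / Real.log x) atTop atTop := by
      have h2 : Tendsto (fun x : ℝ => Real.log x / x) atTop (𝓝[>] 0) := by
        rw [tendsto_nhdsWithin_iff]
        constructor
        · exact Real.isLittleO_log_id_atTop.tendsto_div_nhds_zero
        · filter_upwards [eventually_gt_atTop 1] with x hx
          exact div_pos (Real.log_pos hx) (by linarith)
      refine (h2.inv_tendsto_nhdsGT_zero).congr (fun x => ?_)
      simp
    exact h1.comp tendsto_natCast_atTop_atTop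
  filter_upwards [hlog.eventually_ge_atTop 1, hdiv.eventually_ge_atTop (64 / κ ^ 2), hdiv.eventually_ge_atTop (16 / κ),
    eventually_ge_atTop 1] with L h1 h2 h3 h4
  have hL1 : (1 : ℝ) ≤ L := by exact_mod_cast h4
  have hl0 : 0 < Real.log L := by linarith
  have hx0 : 0 ≤ (L : ℝ) / Real.log L := by positivity
  have hW0 : 0 ≤ W L := by unfold W; positivity
  refine ⟨hW0, fun u hu => ?_⟩
  -- `W ≤ √(L / log L)`
  have hW : W L ≤ √ ((L : ℝ) / Real.log L) := by
    unfold W
    rw [Real.sqrt_div (by linarith)]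
    apply div_le_div_of_nonneg_left (Real.sqrt_nonneg _) (Real.sqrt_pos.2 hl0)
    rw [Real.sqrt_le_left (by positivity)]
    calc Real.log L = Real.log L ^ 1 := (pow_one _).symm
      _ ≤ Real.log L ^ 36 := pow_le_pow_right₀ h1 (by norm_num)
      _ = (Real.log L ^ 18) ^ 2 := by ring
  obtain ⟨x, hx⟩ : ∃ x : ℝ, x = (L : ℝ) / Real.log L := ⟨_, rfl⟩
  rw [← hx] at h2 h3 hu hW hx0 ⊢
  have hsq : √ x ≤ κ / 8 * x := by
    rw [Real.sqrt_le_left (by positivity)]
    have h5 : 64 ≤ κ ^ 2 * x := by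
      rw [div_le_iff₀ (by positivity)] at h2
      linarith
    nlinarith
  have h32 : (3 / 2 : ℝ) ^ u ≤ Real.exp (κ / 4 * x) := by
    have l32 : Real.log (3 / 2) ≤ 1 / 2 := by
      have := Real.log_le_sub_one_of_pos (show (0 : ℝ) < 3 / 2 by norm_num)
      linarith
    calc (3 / 2 : ℝ) ^ u = Real.exp (u * Real.log (3 / 2)) := by
          rw [Real.exp_nat_mul, Real.exp_log (by norm_num)]
      _ ≤ Real.exp (κ / 4 * x) := by
          apply Real.exp_le_exp.2
          have h5 : (u : ℝ) * Real.log (3 / 2) ≤ u * (1 / 2) := mul_le_mul_of_nonneg_left l32 (Nat.cast_nonneg u)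
          linarith
  have h3e : (3 : ℝ) ≤ Real.exp (κ / 4 * x) := by
    have h5 : 4 ≤ κ / 4 * x := by
      rw [div_le_iff₀ hκ] at h3
      linarith
    have h6 := Real.add_one_le_exp (κ / 4 * x)
    linarith
  have hWe : Real.exp (2 * W L) ≤ Real.exp (κ / 4 * x) := Real.exp_le_exp.2 (by linarith)
  calc (3 / 2 : ℝ) ^ u * (3 * Real.exp (2 * W L))
      ≤ Real.exp (κ / 4 * x) * (Real.exp (κ / 4 * x) * Real.exp (κ / 4 * x)) := by gcongr
    _ = Real.exp (κ / 4 * x + (κ / 4 * x + κ / 4 * x)) := by rw [Real.exp_add, Real.exp_add]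
    _ ≤ Real.exp (κ * x) := Real.exp_le_exp.2 (by nlinarith)

/-- the estimates, for the laws with a parameter at most one -/
theorem main {b : ℕ} (hbo : b % 2 = 1) (hb3 : 3 ≤ b) {f : ℤ[X]} (hf : 1 ≤ f.natDegree) {κ ε c : ℝ}
    (hκ : 0 < κ) (hε : 0 < ε) (hc : 0 < c) (hc1 : c ≤ 1) :
    ∃ L₀ : ℕ, ∀ L ≥ L₀, ∀ (Δ : ℕ) (ν : Fin L → Fin b → ℝ), Δ % 2 = 1 → X17.MD.Law b Δ c ν → ∀ A : ℤ,
      X17.MD.prob ν (fun n => 0 < f.eval (A + (n : ℤ)) ∧
        ¬ SameExcursion (W L) (Real.exp (κ * (L / Real.log L))) (f.eval (A + (n : ℤ))).toNat) ≤ ε := by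
  obtain ⟨L₁, h⟩ := X17.DW.near hf hbo hb3 hc hc1 (show 0 < κ / 2 by positivity) hε
  obtain ⟨L₂, h2⟩ := eventually_atTop.1 (factor hκ)
  refine ⟨max L₁ L₂, fun L hL Δ ν hΔ hl A => ?_⟩
  obtain ⟨u, hu, h1⟩ := h L ((le_max_left _ _).trans hL)
  obtain ⟨hW, h3⟩ := h2 L ((le_max_right _ _).trans hL)
  refine (X17.MD.prob_mono hl.nonneg (fun n hn => ?_)).trans ((h1 Δ ν hΔ hl A).1 1 (by norm_num))
  intro hN
  exact hn.2 (same_of hn.1 hW (h3 u hu) hN)

/-- **Main theorem.** Let `b ≥ 3` be odd, `f` an integer polynomial of degree at least `1`, and `κ, ε > 0`.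
1. For every `c > 0` and all `L ≥ L₀ (b, f, κ, ε, c)`, for all odd `Δ`, all laws of `L` independent digits in base `b`
which give at each place probabilities at least `c` to two digits with difference `Δ`, and all integers `A`, the
probability that `y = f (A + n)` is positive and does not have the property
`SameExcursion W (exp (κ L / log L))`, with `W = √L / (log L) ^ 18`, is at most `ε`.
2. Let `D` be a set of digits which contains an even and an odd digit. For `L ≥ L₀` and all integers `A`, at most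
`ε |D| ^ L` of the `|D| ^ L` integers `n` with `L` digits, all in `D`, are such that `f (A + n)` is positive and does
not have this property. -/
theorem result (b : ℕ) (hb : Odd b) (hb3 : 3 ≤ b) (f : ℤ[X]) (hf : 1 ≤ f.natDegree) (κ ε : ℝ) (hκ : 0 < κ)
    (hε : 0 < ε) :
    (∀ c : ℝ, 0 < c → ∃ L₀ : ℕ, ∀ L ≥ L₀, ∀ (Δ : ℕ) (ν : Fin L → Fin b → ℝ), Odd Δ → DigitLaws b Δ c ν →
      ∀ A : ℤ, Prob ν (fun n => 0 < f.eval (A + (n : ℤ)) ∧
        ¬ SameExcursion (W L) (Real.exp (κ * (L / Real.log L))) (f.eval (A + (n : ℤ))).toNat) ≤ ε) ∧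
    (∀ D : Finset ℕ, (∀ x ∈ D, x < b) → (∃ x ∈ D, Even x) → (∃ x ∈ D, Odd x) →
      ∃ L₀ : ℕ, ∀ L ≥ L₀, ∀ A : ℤ,
        ({n : ℕ | n ∈ DigitsIn b D L ∧ 0 < f.eval (A + (n : ℤ)) ∧
          ¬ SameExcursion (W L) (Real.exp (κ * (L / Real.log L))) (f.eval (A + (n : ℤ))).toNat}.ncard : ℝ) ≤
            ε * (D.card : ℝ) ^ L) := by
  have hbo : b % 2 = 1 := Nat.odd_iff.1 hb
  refine ⟨?_, ?_⟩
  · intro c hc
    obtain ⟨L₀, h⟩ := main hbo hb3 hf hκ hε (c := min c 1) (lt_min hc one_pos) (min_le_right _ _)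
    refine ⟨L₀, fun L hL Δ ν hΔ hl A => ?_⟩
    rw [prob_eq]
    exact h L hL Δ ν (Nat.odd_iff.1 hΔ) (laws (min_le_left _ _) hl) A
  · intro D hD he ho
    obtain ⟨hcard, x, y, hx, hy, hxy, hpar⟩ := X17.MD.exists_pair (D := D)
      (by obtain ⟨x, h1, h2⟩ := he; exact ⟨x, h1, Nat.even_iff.1 h2⟩)
      (by obtain ⟨x, h1, h2⟩ := ho; exact ⟨x, h1, Nat.odd_iff.1 h2⟩)
    have hc0 : (0 : ℝ) < D.card := by exact_mod_cast (by omega : 0 < D.card)
    have hle : 1 / (D.card : ℝ) ≤ 1 := by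
      rw [div_le_one hc0]
      exact_mod_cast (by omega : 1 ≤ D.card)
    obtain ⟨L₀, h⟩ := main hbo hb3 hf hκ hε (c := 1 / (D.card : ℝ)) (by positivity) hle
    refine ⟨L₀, fun L hL A => ?_⟩
    have h1 := h L hL (y - x) _ hpar (X17.MD.unif_law hD hx hy hxy L) A
    have hp : (0 : ℝ) < (D.card : ℝ) ^ L := by positivity
    have key : ∀ P : ℕ → Prop, X17.MD.prob (X17.MD.unif b D L) P ≤ ε →
        ({n : ℕ | n ∈ DigitsIn b D L ∧ P n}.ncard : ℝ) ≤ ε * (D.card : ℝ) ^ L := by
      intro P hP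
      have e : {n : ℕ | n ∈ DigitsIn b D L ∧ P n} =
          {n : ℕ | n < b ^ L ∧ (∀ j < L, n / b ^ j % b ∈ D) ∧ P n} := by
        ext n; simp only [DigitsIn, Set.mem_ofPred_eq, and_assoc]
      rw [e]
      refine (X17.MD.count_le (by omega) D hD ⟨x, hx⟩ L P).trans ?_
      nlinarith
    exact key _ h1

end Pool.Agent.Results.MP_0a5adf_nt.DigitExcursions
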