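import Pool.Agent.X16.EE.D

set_option autoImplicit false

/-! Neighbouring integers with the same maximum excursion. -/

namespace Pool.Agent.Results.MP_0a5adf_nt.EqualExcursions

open Filter Topology

/-- the accelerated `3x+1` map -/
def T (n : ℕ) : ℕ := if n % 2 = 0 then n / 2 else (3 * n + 1) / 2

/-- the maximum excursion `t(n) = sup_k T^k n` (possibly infinite) -/
noncomputable def t (n : ℕ) : ℕ∞ := ⨆ k : ℕ, ((T^[k] n : ℕ) : ℕ∞)

/-- The set of the positive integers with the property `P` has natural density `l`. -/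
def HasDensity (P : ℕ → Prop) (l : ℝ) : Prop :=
  Tendsto (fun N : ℕ => ({n : ℕ | 1 ≤ n ∧ n ≤ N ∧ P n}.ncard : ℝ) / N) atTop (𝓝 l)

/-- (1) For every finite set `Y` of triples `(a, b, r)` the set of the `n` such that `t(n)` is finite and
equal to `t(2^a 3^b n + r)` for all `(a, b, r) ∈ Y` has a positive natural density.
(2) In particular this holds for the set of the `n` with `t(n) = t(n+1) = ... = t(n+h) < ∞`, and its
density is at most `(3/2) (h+1)^(-log_2 (3/2))` (`log_2 (3/2) = 0.58...`) for `h ≥ 1`. -/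
theorem result :
    (∀ Y : Finset (ℕ × ℕ × ℤ), ∃ δ : ℝ, 0 < δ ∧
      HasDensity (fun n => t n < ⊤ ∧ ∀ p ∈ Y,
        t ((2 : ℤ) ^ p.1 * 3 ^ p.2.1 * n + p.2.2).toNat = t n) δ) ∧
    ∀ h : ℕ, 1 ≤ h → ∃ δ : ℝ, 0 < δ ∧ δ ≤ 3 / 2 * ((h : ℝ) + 1) ^ (-(Real.log (3 / 2) / Real.log 2)) ∧
      HasDensity (fun n => t n < ⊤ ∧ ∀ i ≤ h, t (n + i) = t n) δ := by
  classical
  have h1 : ∀ Y : Finset (ℕ × ℕ × ℤ), ∃ δ : ℝ, 0 < δ ∧
      HasDensity (fun n => t n < ⊤ ∧ ∀ p ∈ Y,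
        t ((2 : ℤ) ^ p.1 * 3 ^ p.2.1 * n + p.2.2).toNat = t n) δ := by
    intro Y
    obtain ⟨l, hl, h⟩ := Pool.Agent.X16.EE.density_pos Y
    refine ⟨l, hl, ?_⟩
    have e : (fun n => t n < ⊤ ∧ ∀ p ∈ Y, t ((2 : ℤ) ^ p.1 * 3 ^ p.2.1 * n + p.2.2).toNat = t n) =
        Pool.Agent.X16.EE.E (Pool.Agent.X16.EE.prs Y) := by
      funext n
      unfold Pool.Agent.X16.EE.E Pool.Agent.X16.EE.prs
      rw [Finset.forall_mem_image]
      have e2 : ∀ p : ℕ × ℕ × ℤ, ((2 : ℤ) ^ p.1 * 3 ^ p.2.1 * n + p.2.2).toNat =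
          Pool.Agent.X16.EE.nb (2 ^ p.1 * 3 ^ p.2.1) p.2.2 n := by
        intro p
        unfold Pool.Agent.X16.EE.nb
        push_cast
        rfl
      simp only [e2]
      rfl
    rw [e]
    exact h
  refine ⟨h1, fun h hh => ?_⟩
  obtain ⟨δ, hδ, hD⟩ := h1 ((Finset.range (h + 1)).image fun i : ℕ => ((0 : ℕ), (0 : ℕ), (i : ℤ)))
  have e : (fun n : ℕ => t n < ⊤ ∧ ∀ p ∈ (Finset.range (h + 1)).image fun i : ℕ => ((0 : ℕ), (0 : ℕ), (i : ℤ)),
      t ((2 : ℤ) ^ p.1 * 3 ^ p.2.1 * n + p.2.2).toNat = t n) =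
      fun n => t n < ⊤ ∧ ∀ i ≤ h, t (n + i) = t n := by
    funext n
    rw [Finset.forall_mem_image]
    have e2 : ∀ i : ℕ, ((2 : ℤ) ^ (0 : ℕ) * 3 ^ (0 : ℕ) * n + (i : ℤ)).toNat = n + i := by
      intro i
      rw [pow_zero, pow_zero, one_mul, one_mul, ← Nat.cast_add, Int.toNat_natCast]
    simp only [e2, Finset.mem_range, Nat.lt_succ_iff]
  rw [e] at hD
  exact ⟨δ, hδ, Pool.Agent.X16.EE.run_le hh hD, hD⟩

end Pool.Agent.Results.MP_0a5adf_nt.EqualExcursions
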