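import Pool.Agent.X16.RC.P
import Pool.Agent.Results.MP_0a5adf_nt.ExcursionsBeyondEntropy

set_option autoImplicit false

/-! The record holders of the maximum excursion. -/

namespace Pool.Agent.Results.MP_0a5adf_nt.RecordHolders

/-- the accelerated `3x+1` map -/
def T (n : ℕ) : ℕ := if n % 2 = 0 then n / 2 else (3 * n + 1) / 2

/-- the maximum excursion `t(n) = sup_k T^k n` (possibly infinite) -/
noncomputable def t (n : ℕ) : ℕ∞ := ⨆ k : ℕ, ((T^[k] n : ℕ) : ℕ∞)

/-- `n` is a record holder of the maximum excursion: `t(n) > t(m)` for all positive integers `m < n`. -/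
def IsRecordHolder (n : ℕ) : Prop := 1 ≤ n ∧ ∀ m, 1 ≤ m → m < n → t m < t n

/-- the binary entropy function, in bits -/
noncomputable def H (p : ℝ) : ℝ := Real.binEntropy p / Real.log 2

/-- (1) The number of the record holders up to `x` is at most `K x^η` for some `η < H(log_3 2)`
(`= 0.9499...`).  (2) If `r` is a record holder and none of `r + 1, ..., n` is one, then
`n ^ log_2 3 ≤ 3 (t(r) + 1)`. -/
theorem result :
    (∃ η K : ℝ, η < H (Real.log 2 / Real.log 3) ∧ 0 < K ∧ ∀ x : ℝ, 1 ≤ x →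
      ({n : ℕ | 1 ≤ n ∧ (n : ℝ) ≤ x ∧ IsRecordHolder n}.ncard : ℝ) ≤ K * x ^ η) ∧
    ∀ r n V : ℕ, IsRecordHolder r → r ≤ n → (∀ m, r < m → m ≤ n → ¬ IsRecordHolder m) → t r ≤ V →
      (n : ℝ) ^ (Real.log 3 / Real.log 2) ≤ 3 * (V + 1) := by
  constructor
  · obtain ⟨c, B, C, hc, hB, hC, h⟩ := Pool.Agent.Results.MP_0a5adf_nt.ExcursionsBeyondEntropy.result
    obtain ⟨η, hη, K, hK, h'⟩ := Pool.Agent.X16.RC.count_recs (B := B) (c := c) (C := C)
      (H := H (Real.log 2 / Real.log 3)) hC (Pool.Agent.X16.RC.entropy_ge rfl) hc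
      (fun x y V hx hy hV => h x y V hx hy hV)
    exact ⟨η, K, hη, hK, h'⟩
  · intro r n V hr hrn h hV
    exact Pool.Agent.X16.RC.record_ge hr hrn h hV

end Pool.Agent.Results.MP_0a5adf_nt.RecordHolders
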